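import Mathlib

set_option autoImplicit false

namespace Pool.Agent.Results.MP_555fce_lc.Density

/-- `W e` is the domain of the `e`-th partial computable function, in Mathlib's standard
numbering of codes. -/
def W (e : ℕ) : Set ℕ :=
  {n | (Nat.Partrec.Code.eval (Denumerable.ofNat Nat.Partrec.Code e) n).Dom}

/-- A tolerance relation: an equivalence relation on `ℕ` which contains equality of c.e. sets. -/
def IsTolerance (E : ℕ → ℕ → Prop) : Prop :=
  Equivalence E ∧ ∀ e e' : ℕ, W e = W e' → E e e'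

/-- The initial segment `(μ 0, ..., μ (s-1))`. -/
def seg (μ : ℕ → ℕ) (s : ℕ) : List ℕ := List.ofFn fun j : Fin s => μ j.val

/-- `K` is `E`-learnable. -/
def Learnable (E : ℕ → ℕ → Prop) (K : Set (Set ℕ)) : Prop :=
  ∃ M : List ℕ → ℕ, ∀ e : ℕ, W e ∈ K → ∀ μ : ℕ → ℕ, Set.range μ = W e →
    ∃ i : ℕ, (∃ s₀ : ℕ, ∀ s : ℕ, s₀ ≤ s → M (seg μ s) = i) ∧ E i e

/-- A family of nonempty c.e. sets. -/
def IsFamily (K : Set (Set ℕ)) : Prop := ∀ A ∈ K, A.Nonempty ∧ ∃ e : ℕ, A = W e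

/-- `E ≤_Learn F`. -/
def LearnLE (E F : ℕ → ℕ → Prop) : Prop :=
  ∀ K : Set (Set ℕ), IsFamily K → Learnable E K → Learnable F K

/-- `E <_Learn F`. -/
def LearnLT (E F : ℕ → ℕ → Prop) : Prop := LearnLE E F ∧ ¬ LearnLE F E

/-! ### initial segments and limits of chains of lists -/

theorem seg_length (μ : ℕ → ℕ) (s : ℕ) : (seg μ s).length = s := by simp [seg]

theorem seg_getElem? (μ : ℕ → ℕ) {s i : ℕ} (h : i < s) : (seg μ s)[i]? = some (μ i) := by
  simp [seg, h]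

theorem mem_seg {μ : ℕ → ℕ} {s a : ℕ} : a ∈ seg μ s ↔ ∃ j < s, μ j = a := by
  simp only [seg, List.mem_ofFn]
  constructor
  · rintro ⟨j, rfl⟩; exact ⟨j, j.2, rfl⟩
  · rintro ⟨j, hj, rfl⟩; exact ⟨⟨j, hj⟩, rfl⟩

theorem seg_succ (μ : ℕ → ℕ) (s : ℕ) : seg μ (s + 1) = seg μ s ++ [μ s] := by
  unfold seg
  rw [List.ofFn_succ']
  simp

/-- an enumeration which starts with `σ` and continues with `ν` -/
def app (σ : List ℕ) (ν : ℕ → ℕ) (n : ℕ) : ℕ := σ.getD n (ν (n - σ.length))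

theorem app_lt (σ : List ℕ) (ν : ℕ → ℕ) {n : ℕ} (h : n < σ.length) : app σ ν n = σ[n] := by
  simp [app, h]

theorem app_ge (σ : List ℕ) (ν : ℕ → ℕ) (n : ℕ) : app σ ν (σ.length + n) = ν n := by
  simp [app]

theorem seg_app (σ : List ℕ) (ν : ℕ → ℕ) : seg (app σ ν) σ.length = σ := by
  apply List.ext_getElem?
  intro i
  by_cases hi : i < σ.length
  · rw [seg_getElem? _ hi, app_lt σ ν hi, List.getElem?_eq_getElem hi]
  · rw [List.getElem?_eq_none (by rw [seg_length]; omega), List.getElem?_eq_none (by omega)]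

theorem seg_add (μ : ℕ → ℕ) (s t : ℕ) : ∃ ρ, seg μ (s + t) = seg μ s ++ ρ := by
  induction t with
  | zero => exact ⟨[], by simp⟩
  | succ t ih =>
    obtain ⟨ρ, hρ⟩ := ih
    exact ⟨ρ ++ [μ (s + t)], by rw [← add_assoc, seg_succ, hρ, List.append_assoc]⟩

theorem range_app (σ : List ℕ) (ν : ℕ → ℕ) (h : ∀ a ∈ σ, a ∈ Set.range ν) :
    Set.range (app σ ν) = Set.range ν := by
  apply Set.Subset.antisymm
  · rintro _ ⟨n, rfl⟩
    by_cases hn : n < σ.length
    · rw [app_lt σ ν hn]; exact h _ (List.getElem_mem hn)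
    · obtain ⟨k, rfl⟩ := Nat.exists_eq_add_of_le (not_lt.1 hn)
      rw [app_ge]; exact ⟨k, rfl⟩
  · rintro _ ⟨n, rfl⟩
    exact ⟨σ.length + n, app_ge σ ν n⟩

/-- the limit of a chain of lists -/
theorem exists_limit (c : ℕ → List ℕ) (hc : ∀ n, ∃ ρ, c (n + 1) = c n ++ ρ)
    (hl : ∀ n, n ≤ (c n).length) : ∃ μ : ℕ → ℕ, ∀ n, seg μ (c n).length = c n := by
  have hmono : ∀ n k, ∃ ρ, c (n + k) = c n ++ ρ := by
    intro n k
    induction k with
    | zero => exact ⟨[], by simp⟩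
    | succ k ih =>
      obtain ⟨ρ, hρ⟩ := ih
      obtain ⟨ρ', hρ'⟩ := hc (n + k)
      exact ⟨ρ ++ ρ', by rw [← add_assoc, hρ', hρ, List.append_assoc]⟩
  refine ⟨fun k => (c (k + 1)).getD k 0, fun n => ?_⟩
  apply List.ext_getElem?
  intro i
  by_cases hi : i < (c n).length
  · rw [seg_getElem? _ hi]
    have h1 : i < (c (i + 1)).length := hl (i + 1)
    rw [List.getD_eq_getElem _ _ h1, ← List.getElem?_eq_getElem h1]
    rcases le_total n (i + 1) with h | h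
    · obtain ⟨k, hk⟩ := Nat.exists_eq_add_of_le h
      obtain ⟨ρ, hρ⟩ := hmono n k
      rw [hk, hρ, List.getElem?_append_left hi]
    · obtain ⟨k, hk⟩ := Nat.exists_eq_add_of_le h
      obtain ⟨ρ, hρ⟩ := hmono (i + 1) k
      rw [hk, hρ, List.getElem?_append_left h1]
  · rw [List.getElem?_eq_none (by rw [seg_length]; omega), List.getElem?_eq_none (by omega)]

/-! ### locking sequences -/

/-- a nonempty set of naturals is the range of a function -/
theorem exists_enum (A : Set ℕ) (hA : A.Nonempty) : ∃ l : ℕ → ℕ, Set.range l = A := by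
  obtain ⟨f, hf⟩ := (Set.to_countable A).exists_eq_range hA
  exact ⟨f, hf.symm⟩

theorem exists_locking (M : List ℕ → ℕ) (A : Set ℕ) (hA : A.Nonempty)
    (hM : ∀ μ : ℕ → ℕ, Set.range μ = A → ∃ i, ∃ s₀, ∀ s, s₀ ≤ s → M (seg μ s) = i) :
    ∃ σ : List ℕ, (∀ a ∈ σ, a ∈ A) ∧ ∀ ρ : List ℕ, (∀ a ∈ ρ, a ∈ A) → M (σ ++ ρ) = M σ := by
  by_contra hcon
  push Not at hcon
  choose! r hr1 hr2 using hcon
  obtain ⟨l, hl⟩ := exists_enum A hA
  have hlA : ∀ n, l n ∈ A := fun n => hl ▸ ⟨n, rfl⟩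
  -- the chain
  obtain ⟨c, hc0, hcs⟩ : ∃ c : ℕ → List ℕ, c 0 = [] ∧
      ∀ n, c (n + 1) = (c n ++ [l n]) ++ r (c n ++ [l n]) :=
    ⟨fun n => Nat.rec [] (fun n σ => (σ ++ [l n]) ++ r (σ ++ [l n])) n, rfl, fun _ => rfl⟩
  have hcA : ∀ n, ∀ a ∈ c n, a ∈ A := by
    intro n
    induction n with
    | zero => simp [hc0]
    | succ n ih =>
      have h1 : ∀ a ∈ c n ++ [l n], a ∈ A := by
        intro a ha
        rcases List.mem_append.1 ha with h | h
        · exact ih a h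
        · rw [List.mem_singleton] at h; rw [h]; exact hlA n
      intro a ha
      rw [hcs] at ha
      rcases List.mem_append.1 ha with h | h
      · exact h1 a h
      · exact hr1 _ h1 a h
  have hcA' : ∀ n, ∀ a ∈ c n ++ [l n], a ∈ A := by
    intro n a ha
    rcases List.mem_append.1 ha with h | h
    · exact hcA n a h
    · rw [List.mem_singleton] at h; rw [h]; exact hlA n
  have hlen : ∀ n, n ≤ (c n).length := by
    intro n
    induction n with
    | zero => simp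
    | succ n ih => rw [hcs]; simp; omega
  obtain ⟨μ, hμ⟩ := exists_limit c (fun n => ⟨[l n] ++ r (c n ++ [l n]), by
    rw [hcs, List.append_assoc]⟩) hlen
  have hμ' : ∀ n, seg μ ((c n).length + 1) = c n ++ [l n] := by
    intro n
    have h1 := hμ (n + 1)
    have h2 : (c n).length + 1 + (r (c n ++ [l n])).length = (c (n + 1)).length := by
      rw [hcs]; simp; omega
    obtain ⟨ρ, hρ⟩ := seg_add μ ((c n).length + 1) (r (c n ++ [l n])).length
    rw [h2, h1, hcs] at hρ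
    exact ((List.append_inj hρ (by simp [seg_length])).1).symm
  have hrange : Set.range μ = A := by
    apply Set.Subset.antisymm
    · rintro _ ⟨k, rfl⟩
      have : μ k ∈ c (k + 1) := by
        rw [← hμ (k + 1), mem_seg]
        exact ⟨k, hlen (k + 1), rfl⟩
      exact hcA _ _ this
    · intro a ha
      rw [← hl] at ha
      obtain ⟨n, rfl⟩ := ha
      have : l n ∈ seg μ ((c n).length + 1) := by rw [hμ']; simp
      obtain ⟨j, _, hj⟩ := mem_seg.1 this
      exact ⟨j, hj⟩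
  obtain ⟨i, s₀, hs₀⟩ := hM μ hrange
  have h1 := hs₀ ((c s₀).length + 1) (by have := hlen s₀; omega)
  have h2 := hs₀ ((c (s₀ + 1)).length) (by have := hlen (s₀ + 1); omega)
  rw [hμ'] at h1
  rw [hμ, hcs] at h2
  exact hr2 _ (hcA' s₀) (h2.trans h1.symm)

/-- tell-tale sets -/
theorem telltale {E : ℕ → ℕ → Prop} (hE : IsTolerance E) {K : Set (Set ℕ)} (hK : IsFamily K)
    (h : Learnable E K) (e : ℕ) (he : W e ∈ K) :
    ∃ D : Finset ℕ, (∀ a ∈ D, a ∈ W e) ∧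
      ∀ e', W e' ∈ K → (∀ a ∈ D, a ∈ W e') → W e' ⊆ W e → E e' e := by
  obtain ⟨M, hM⟩ := h
  have hne := (hK _ he).1
  obtain ⟨σ, hσ1, hσ2⟩ := exists_locking M (W e) hne (fun μ hμ => by
    obtain ⟨i, hi, _⟩ := hM e he μ hμ
    exact ⟨i, hi⟩)
  have key : ∀ e', W e' ∈ K → (∀ a ∈ σ, a ∈ W e') → W e' ⊆ W e → E (M σ) e' := by
    intro e' he' hσ' hsub
    obtain ⟨l, hl⟩ := exists_enum (W e') (hK _ he').1
    have hr : Set.range (app σ l) = W e' := by
      rw [range_app σ l (by rw [hl]; exact hσ'), hl]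
    obtain ⟨i, ⟨s₀, hs₀⟩, hi⟩ := hM e' he' _ hr
    have h1 := hs₀ (σ.length + s₀) (by omega)
    obtain ⟨ρ, hρ⟩ := seg_add (app σ l) σ.length s₀
    rw [seg_app] at hρ
    have hρA : ∀ a ∈ ρ, a ∈ W e := by
      intro a ha
      have : a ∈ seg (app σ l) (σ.length + s₀) := by
        rw [hρ]; exact List.mem_append_right _ ha
      obtain ⟨j, _, rfl⟩ := mem_seg.1 this
      apply hsub
      rw [← hr]; exact ⟨j, rfl⟩
    rw [hρ, hσ2 ρ hρA] at h1
    rw [h1]; exact hi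
  refine ⟨σ.toFinset, fun a ha => hσ1 a (List.mem_toFinset.1 ha), ?_⟩
  intro e' he' hD hsub
  have h1 := key e' he' (fun a ha => hD a (List.mem_toFinset.2 ha)) hsub
  have h2 := key e he hσ1 (le_refl _)
  exact hE.1.trans (hE.1.symm h1) h2

/-- families with tell-tale sets are learnable -/
theorem learnable_of_telltale {E : ℕ → ℕ → Prop} (hE : IsTolerance E) {K : Set (Set ℕ)}
    (h : ∀ e, W e ∈ K → ∃ D : Finset ℕ, (∀ a ∈ D, a ∈ W e) ∧
      ∀ e', W e' ∈ K → (∀ a ∈ D, a ∈ W e') → W e' ⊆ W e → E e' e) : Learnable E K := by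
  classical
  choose! D hD1 hD2 using h
  let P : List ℕ → ℕ → Prop := fun σ i => W i ∈ K ∧ (∀ a ∈ D i, a ∈ σ) ∧ ∀ a ∈ σ, a ∈ W i
  let M : List ℕ → ℕ := fun σ => if h : ∃ i, P σ i then Nat.find h else 0
  refine ⟨M, fun e he μ hμ => ?_⟩
  let Q : ℕ → Prop := fun i => W i ∈ K ∧ (∀ a ∈ D i, a ∈ W e) ∧ W e ⊆ W i
  have hQ : ∃ i, Q i := ⟨e, he, hD1 e he, le_refl _⟩
  obtain ⟨hi1, hi2, hi3⟩ := Nat.find_spec hQ
  have hmin : ∀ i < Nat.find hQ, ¬ Q i := fun i hi => Nat.find_min hQ hi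
  set i₀ := Nat.find hQ with hi₀
  refine ⟨i₀, ?_, hE.1.symm (hD2 i₀ hi1 e he hi2 hi3)⟩
  -- positions where elements appear
  have hpos : ∀ a, a ∈ W e → ∃ j, μ j = a := by
    intro a ha
    rw [← hμ] at ha
    exact ha
  choose! pos hposs using hpos
  -- witnesses that `W e` is not a subset of `W i`
  have hwit : ∀ i, ¬ (W e ⊆ W i) → ∃ a, a ∈ W e ∧ a ∉ W i := by
    intro i hi
    rw [Set.not_subset] at hi
    obtain ⟨a, h1, h2⟩ := hi
    exact ⟨a, h1, h2⟩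
  choose! wit hw1 hw2 using hwit
  refine ⟨((D i₀).sup fun a => pos a + 1) + ((Finset.range i₀).sup fun i => pos (wit i) + 1),
    fun s hs => ?_⟩
  have hP : P (seg μ s) i₀ := by
    refine ⟨hi1, fun a ha => ?_, fun a ha => ?_⟩
    · rw [mem_seg]
      refine ⟨pos a, ?_, hposs a (hi2 a ha)⟩
      have : pos a + 1 ≤ (D i₀).sup fun a => pos a + 1 := Finset.le_sup (f := fun a => pos a + 1) ha
      omega
    · obtain ⟨j, _, rfl⟩ := mem_seg.1 ha
      apply hi3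
      rw [← hμ]; exact ⟨j, rfl⟩
  have hnP : ∀ i < i₀, ¬ P (seg μ s) i := by
    rintro i hi ⟨h1, h2, h3⟩
    apply hmin i hi
    refine ⟨h1, fun a ha => ?_, ?_⟩
    · obtain ⟨j, _, rfl⟩ := mem_seg.1 (h2 a ha)
      rw [← hμ]; exact ⟨j, rfl⟩
    · by_contra hsub
      apply hw2 i hsub
      apply h3
      rw [mem_seg]
      refine ⟨pos (wit i), ?_, hposs _ (hw1 i hsub)⟩
      have : pos (wit i) + 1 ≤ (Finset.range i₀).sup fun i => pos (wit i) + 1 :=
        Finset.le_sup (f := fun i => pos (wit i) + 1) (Finset.mem_range.2 hi)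
      omega
  have hex : ∃ i, P (seg μ s) i := ⟨i₀, hP⟩
  simp only [M]
  rw [dif_pos hex, Nat.find_eq_iff]
  exact ⟨hP, hnP⟩

/-! ### the local characterisation of the order -/

/-- local inclusion of the classes, from below -/
def Loc (E F : ℕ → ℕ → Prop) : Prop :=
  ∀ e, (W e).Nonempty → ∃ D : Finset ℕ, (∀ a ∈ D, a ∈ W e) ∧
    ∀ e', (W e').Nonempty → (∀ a ∈ D, a ∈ W e') → W e' ⊆ W e → E e' e → F e' e

theorem learnLE_iff {E F : ℕ → ℕ → Prop} (hE : IsTolerance E) (hF : IsTolerance F) :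
    LearnLE E F ↔ Loc E F := by
  constructor
  · intro h e he
    let K : Set (Set ℕ) := {A | ∃ e', A = W e' ∧ (W e').Nonempty ∧ W e' ⊆ W e ∧ E e' e}
    have hK : IsFamily K := by
      rintro _ ⟨e', rfl, h1, h2, h3⟩
      exact ⟨h1, e', rfl⟩
    have hEK : Learnable E K := by
      refine ⟨fun _ => e, fun i hi μ hμ => ⟨e, ⟨0, fun _ _ => rfl⟩, ?_⟩⟩
      obtain ⟨e', h1, h2, h3, h4⟩ := hi
      exact hE.1.symm (hE.1.trans (hE.2 _ _ h1) h4)
    obtain ⟨D, hD1, hD2⟩ := telltale hF hK (h K hK hEK) e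
      ⟨e, rfl, he, le_refl _, hE.1.refl e⟩
    exact ⟨D, hD1, fun e' h1 h2 h3 h4 => hD2 e' ⟨e', rfl, h1, h3, h4⟩ h2 h3⟩
  · intro h K hK hEK
    apply learnable_of_telltale hF
    intro e he
    obtain ⟨D, hD1, hD2⟩ := telltale hE hK hEK e he
    obtain ⟨D', hD1', hD2'⟩ := h e (hK _ he).1
    refine ⟨D ∪ D', ?_, ?_⟩
    · intro a ha
      rcases Finset.mem_union.1 ha with h | h
      · exact hD1 a h
      · exact hD1' a h
    · intro e' he' hDD hsub
      exact hD2' e' (hK _ he').1 (fun a ha => hDD a (Finset.mem_union_right _ ha)) hsub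
        (hD2 e' he' (fun a ha => hDD a (Finset.mem_union_left _ ha)) hsub)

theorem tolerance_inf {E F : ℕ → ℕ → Prop} (hE : IsTolerance E) (hF : IsTolerance F) :
    IsTolerance (fun a b => E a b ∧ F a b) :=
  ⟨⟨fun a => ⟨hE.1.refl a, hF.1.refl a⟩, fun h => ⟨hE.1.symm h.1, hF.1.symm h.2⟩,
    fun h h' => ⟨hE.1.trans h.1 h'.1, hF.1.trans h.2 h'.2⟩⟩,
    fun _ _ h => ⟨hE.2 _ _ h, hF.2 _ _ h⟩⟩

/-- **The tolerant learning hierarchy is dense.** -/
theorem result (E F : ℕ → ℕ → Prop) (hE : IsTolerance E) (hF : IsTolerance F)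
    (hEF : LearnLT E F) :
    ∃ G : ℕ → ℕ → Prop, IsTolerance G ∧ LearnLT E G ∧ LearnLT G F := by
  classical
  obtain ⟨hle, hnle⟩ := hEF
  rw [learnLE_iff hE hF] at hle
  rw [learnLE_iff hF hE] at hnle
  unfold Loc at hnle
  push Not at hnle
  obtain ⟨e₀, he₀, hne⟩ := hnle
  obtain ⟨l, hl⟩ := exists_enum (W e₀) he₀
  have hlA : ∀ n, l n ∈ W e₀ := fun n => hl ▸ ⟨n, rfl⟩
  -- choice of an index and of a missing element
  have hch : ∀ D : Finset ℕ, (∀ a ∈ D, a ∈ W e₀) → ∃ e' a, (W e').Nonempty ∧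
      (∀ a ∈ D, a ∈ W e') ∧ W e' ⊆ W e₀ ∧ F e' e₀ ∧ ¬ E e' e₀ ∧ a ∈ W e₀ ∧ a ∉ W e' := by
    intro D hD
    obtain ⟨e', h1, h2, h3, h4, h5⟩ := hne D hD
    have : ¬ W e₀ ⊆ W e' := fun h => h5 (hE.2 _ _ (Set.Subset.antisymm h3 h))
    rw [Set.not_subset] at this
    obtain ⟨a, ha1, ha2⟩ := this
    exact ⟨e', a, h1, h2, h3, h4, h5, ha1, ha2⟩
  choose! ix ms c1 c2 c3 c4 c5 c6 c7 using hch
  obtain ⟨D, hD0, hDs⟩ : ∃ D : ℕ → Finset ℕ, D 0 = ∅ ∧
      ∀ n, D (n + 1) = insert (ms (D n)) (insert (l n) (D n)) :=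
    ⟨fun n => Nat.rec ∅ (fun n X => insert (ms X) (insert (l n) X)) n, rfl, fun _ => rfl⟩
  have hDA : ∀ n, ∀ a ∈ D n, a ∈ W e₀ := by
    intro n
    induction n with
    | zero => intro a ha; rw [hD0] at ha; exact absurd ha (Finset.notMem_empty a)
    | succ n ih =>
      intro a ha
      rw [hDs, Finset.mem_insert, Finset.mem_insert] at ha
      rcases ha with rfl | rfl | ha
      · exact c6 _ ih
      · exact hlA n
      · exact ih a ha
  have hDmono : ∀ n m, n ≤ m → D n ⊆ D m := by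
    intro n m h
    induction m, h using Nat.le_induction with
    | base => exact Finset.Subset.refl _
    | succ m _ ih =>
      rw [hDs]
      exact fun a ha => Finset.mem_insert_of_mem (Finset.mem_insert_of_mem (ih ha))
  have hms : ∀ n m, n < m → ms (D n) ∈ D m := by
    intro n m h
    apply hDmono (n + 1) m h
    rw [hDs]; exact Finset.mem_insert_self _ _
  have hcov : ∀ a, a ∈ W e₀ → ∃ n, a ∈ D n := by
    intro a ha
    rw [← hl] at ha
    obtain ⟨n, rfl⟩ := ha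
    exact ⟨n + 1, by rw [hDs]; exact Finset.mem_insert_of_mem (Finset.mem_insert_self _ _)⟩
  -- a finite subset of `W e₀` is contained in `D n` for all large `n`
  have hcovF : ∀ X : Finset ℕ, (∀ a ∈ X, a ∈ W e₀) → ∃ N, ∀ n, N ≤ n → ∀ a ∈ X, a ∈ D n := by
    intro X hX
    choose! N hN using hcov
    refine ⟨X.sup N, fun n hn a ha => ?_⟩
    exact hDmono _ _ (le_trans (Finset.le_sup ha) hn) (hN a (hX a ha))
  -- the neighbourhoods
  let V : ℕ → Set (Set ℕ) := fun n => {X | (∀ a ∈ D n, a ∈ X) ∧ X ⊆ W (ix (D n))}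
  have hVlt : ∀ n m X, n < m → X ∈ V n → X ∈ V m → False := by
    rintro n m X hnm ⟨h1, h2⟩ ⟨h3, h4⟩
    exact c7 (D n) (hDA n) (h2 (h3 _ (hms n m hnm)))
  have hVinj : ∀ n m X, X ∈ V n → X ∈ V m → n = m := by
    intro n m X h1 h2
    rcases lt_trichotomy n m with h | h | h
    · exact (hVlt n m X h h1 h2).elim
    · exact h
    · exact (hVlt m n X h h2 h1).elim
  have hVix : ∀ n, W (ix (D n)) ∈ V n := fun n => ⟨c2 _ (hDA n), le_refl _⟩
  let S : Set (Set ℕ) := {X | ∃ n, Even n ∧ X ∈ V n}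
  obtain ⟨T, hTdef⟩ : ∃ T : ℕ → Prop, ∀ e, T e ↔ (F e e₀ ∧ (E e e₀ ∨ W e ∈ S)) :=
    ⟨_, fun _ => Iff.rfl⟩
  obtain ⟨G, hGdef⟩ : ∃ G : ℕ → ℕ → Prop, ∀ a b, G a b ↔
      ((T a ∧ T b) ∨ (¬ T a ∧ ¬ T b ∧ (E a b ∧ F a b))) := ⟨_, fun _ _ => Iff.rfl⟩
  have hTcongr : ∀ a b, W a = W b → T a → T b := by
    intro a b hab
    rw [hTdef, hTdef]
    rintro ⟨h1, h2⟩
    refine ⟨hF.1.trans (hF.1.symm (hF.2 _ _ hab)) h1, ?_⟩
    rcases h2 with h2 | h2
    · exact Or.inl (hE.1.trans (hE.1.symm (hE.2 _ _ hab)) h2)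
    · right; rw [← hab]; exact h2
  have hG : IsTolerance G := by
    refine ⟨⟨?_, ?_, ?_⟩, ?_⟩
    · intro a
      rw [hGdef]
      by_cases ha : T a
      · exact Or.inl ⟨ha, ha⟩
      · exact Or.inr ⟨ha, ha, hE.1.refl a, hF.1.refl a⟩
    · intro a b h
      rw [hGdef] at h ⊢
      rcases h with ⟨h1, h2⟩ | ⟨h1, h2, h3, h4⟩
      · exact Or.inl ⟨h2, h1⟩
      · exact Or.inr ⟨h2, h1, hE.1.symm h3, hF.1.symm h4⟩
    · intro a b c h k
      rw [hGdef] at h k ⊢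
      rcases h with ⟨h1, h2⟩ | ⟨h1, h2, h3, h4⟩ <;> rcases k with ⟨k1, k2⟩ | ⟨k1, k2, k3, k4⟩
      · exact Or.inl ⟨h1, k2⟩
      · exact absurd h2 k1
      · exact absurd k1 h2
      · exact Or.inr ⟨h1, k2, hE.1.trans h3 k3, hF.1.trans h4 k4⟩
    · intro a b hab
      rw [hGdef]
      by_cases ha : T a
      · exact Or.inl ⟨ha, hTcongr a b hab ha⟩
      · exact Or.inr ⟨ha, fun hb => ha (hTcongr b a hab.symm hb), hE.2 _ _ hab, hF.2 _ _ hab⟩
  have hT₀ : T e₀ := (hTdef _).2 ⟨hF.1.refl _, Or.inl (hE.1.refl _)⟩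
  have hTsub : ∀ n, Even n → T (ix (D n)) := fun n hn =>
    (hTdef _).2 ⟨c4 _ (hDA n), Or.inr ⟨n, hn, hVix n⟩⟩
  have hTodd : ∀ n, ¬ Even n → ¬ T (ix (D n)) := by
    intro n hn hT
    rcases (hTdef _).1 hT with ⟨_, h | ⟨m, hm, hmV⟩⟩
    · exact c5 _ (hDA n) h
    · rw [hVinj n m _ (hVix n) hmV] at hn
      exact hn hm
  refine ⟨G, hG, ⟨?_, ?_⟩, ⟨?_, ?_⟩⟩
  · -- `E ≤ G`
    rw [learnLE_iff hE hG]
    intro e he
    obtain ⟨X, hX1, hX2⟩ := hle e he
    by_cases hTe : T e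
    · have hTe' := hTe
      rw [hTdef] at hTe'
      obtain ⟨hFe, hEe | ⟨n, hn, hV1, hV2⟩⟩ := hTe'
      · refine ⟨X, hX1, fun e' h1 h2 h3 h4 => (hGdef _ _).2 (Or.inl ⟨(hTdef _).2 ⟨?_, Or.inl ?_⟩,
          hTe⟩)⟩
        · exact hF.1.trans (hX2 e' h1 h2 h3 h4) hFe
        · exact hE.1.trans h4 hEe
      · refine ⟨X ∪ D n, ?_, ?_⟩
        · intro a ha
          rcases Finset.mem_union.1 ha with h | h
          · exact hX1 a h
          · exact hV1 a h
        · intro e' h1 h2 h3 h4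
          refine (hGdef _ _).2 (Or.inl ⟨(hTdef _).2 ⟨?_, Or.inr ⟨n, hn, ?_, ?_⟩⟩, hTe⟩)
          · exact hF.1.trans
              (hX2 e' h1 (fun a ha => h2 a (Finset.mem_union_left _ ha)) h3 h4) hFe
          · exact fun a ha => h2 a (Finset.mem_union_right _ ha)
          · exact h3.trans hV2
    · -- `e` is not in the new class: find a neighbourhood missing `T`
      have hclosed : F e e₀ → ∃ Y : Finset ℕ, (∀ a ∈ Y, a ∈ W e) ∧
          ∀ e', (∀ a ∈ Y, a ∈ W e') → W e' ⊆ W e → W e' ∉ S := by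
        intro hFe
        have hEe : ¬ E e e₀ := fun h => hTe ((hTdef _).2 ⟨hFe, Or.inl h⟩)
        have hSe : W e ∉ S := fun h => hTe ((hTdef _).2 ⟨hFe, Or.inr h⟩)
        by_cases hsub : W e ⊆ W e₀
        · have hne' : ¬ W e₀ ⊆ W e := fun h => hEe (hE.2 _ _ (Set.Subset.antisymm hsub h))
          rw [Set.not_subset] at hne'
          obtain ⟨d, hd1, hd2⟩ := hne'
          obtain ⟨N, hN⟩ := hcov d hd1
          -- witnesses
          have hwit : ∀ n, ¬ (W e ⊆ W (ix (D n))) → ∃ a, a ∈ W e ∧ a ∉ W (ix (D n)) := by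
            intro n hn
            rw [Set.not_subset] at hn
            obtain ⟨a, h1, h2⟩ := hn
            exact ⟨a, h1, h2⟩
          choose! wit hw1 hw2 using hwit
          refine ⟨((Finset.range N).filter fun n => ¬ (W e ⊆ W (ix (D n)))).image wit, ?_, ?_⟩
          · intro a ha
            rw [Finset.mem_image] at ha
            obtain ⟨n, hn, rfl⟩ := ha
            exact hw1 n (Finset.mem_filter.1 hn).2
          · rintro e' h1 h2 ⟨n, hn, h3, h4⟩
            have hnN : n < N := by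
              by_contra hcon
              exact hd2 (h2 (h3 d (hDmono N n (not_lt.1 hcon) hN)))
            have hnsub : ¬ (W e ⊆ W (ix (D n))) := by
              intro h
              exact hSe ⟨n, hn, fun a ha => h2 (h3 a ha), h⟩
            have h5 := h1 (wit n) (Finset.mem_image.2
              ⟨n, Finset.mem_filter.2 ⟨Finset.mem_range.2 hnN, hnsub⟩, rfl⟩)
            exact hw2 n hnsub (h4 h5)
        · rw [Set.not_subset] at hsub
          obtain ⟨x, hx1, hx2⟩ := hsub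
          refine ⟨{x}, fun a ha => by rw [Finset.mem_singleton.1 ha]; exact hx1, ?_⟩
          rintro e' h1 h2 ⟨n, hn, h3, h4⟩
          exact hx2 (c3 _ (hDA n) (h4 (h1 x (Finset.mem_singleton_self x))))
      by_cases hFe : F e e₀
      · obtain ⟨Y, hY1, hY2⟩ := hclosed hFe
        refine ⟨X ∪ Y, ?_, ?_⟩
        · intro a ha
          rcases Finset.mem_union.1 ha with h | h
          · exact hX1 a h
          · exact hY1 a h
        · intro e' h1 h2 h3 h4
          have hF' := hX2 e' h1 (fun a ha => h2 a (Finset.mem_union_left _ ha)) h3 h4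
          refine (hGdef _ _).2 (Or.inr ⟨?_, hTe, h4, hF'⟩)
          intro hTe'
          rcases (hTdef _).1 hTe' with ⟨_, h5 | h5⟩
          · exact hTe ((hTdef _).2 ⟨hFe, Or.inl (hE.1.trans (hE.1.symm h4) h5)⟩)
          · exact hY2 e' (fun a ha => h2 a (Finset.mem_union_right _ ha)) h3 h5
      · refine ⟨X, hX1, fun e' h1 h2 h3 h4 => ?_⟩
        have hF' := hX2 e' h1 h2 h3 h4
        refine (hGdef _ _).2 (Or.inr ⟨?_, hTe, h4, hF'⟩)
        intro hTe'
        exact hFe (hF.1.trans (hF.1.symm hF') ((hTdef _).1 hTe').1)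
  · -- `G ≰ E`
    rw [learnLE_iff hG hE]
    intro hloc
    obtain ⟨X, hX1, hX2⟩ := hloc e₀ he₀
    obtain ⟨N, hN⟩ := hcovF X hX1
    have hev : Even (2 * N) := ⟨N, by ring⟩
    have := hX2 (ix (D (2 * N))) (c1 _ (hDA (2 * N)))
      (fun a ha => c2 _ (hDA (2 * N)) a (hN (2 * N) (by omega) a ha)) (c3 _ (hDA (2 * N)))
      ((hGdef _ _).2 (Or.inl ⟨hTsub _ hev, hT₀⟩))
    exact c5 _ (hDA (2 * N)) this
  · -- `G ≤ F`
    rw [learnLE_iff hG hF]
    intro e he
    refine ⟨∅, fun a ha => absurd ha (Finset.notMem_empty a), fun e' _ _ _ h => ?_⟩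
    rcases (hGdef _ _).1 h with ⟨h1, h2⟩ | ⟨_, _, _, h4⟩
    · exact hF.1.trans ((hTdef _).1 h1).1 (hF.1.symm ((hTdef _).1 h2).1)
    · exact h4
  · -- `F ≰ G`
    rw [learnLE_iff hF hG]
    intro hloc
    obtain ⟨X, hX1, hX2⟩ := hloc e₀ he₀
    obtain ⟨N, hN⟩ := hcovF X hX1
    have hodd : ¬ Even (2 * N + 1) := by
      rw [Nat.not_even_iff_odd]; exact ⟨N, rfl⟩
    have := hX2 (ix (D (2 * N + 1))) (c1 _ (hDA (2 * N + 1)))
      (fun a ha => c2 _ (hDA (2 * N + 1)) a (hN (2 * N + 1) (by omega) a ha))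
      (c3 _ (hDA (2 * N + 1))) (c4 _ (hDA (2 * N + 1)))
    rcases (hGdef _ _).1 this with ⟨h1, _⟩ | ⟨_, h2, _⟩
    · exact hTodd _ hodd h1
    · exact h2 hT₀

end Pool.Agent.Results.MP_555fce_lc.Density
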